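import Pool.Agent.H6.FB.Stmts

/-!
# Project FB: module GMA (the map `G`)
-/

set_option autoImplicit false

open Metric Set Filter Topology

namespace Pool.Agent.H6.FB

section GMA

variable {E : Type} [NormedAddCommGroup E] [InnerProductSpace ℂ E]

theorem GMA_bessel {e e' : E} (he : ‖e‖ = 1) (he' : ‖e'‖ = 1) (hee : inner ℂ e e' = 0) (z : E) :
    ‖(inner ℂ e z : ℂ)‖ ^ 2 + ‖(inner ℂ e' z : ℂ)‖ ^ 2 ≤ ‖z‖ ^ 2 := by
  have ho : Orthonormal ℂ ![e, e'] := by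
    rw [orthonormal_iff_ite]
    have h2 : inner ℂ e' e' = 1 := by rw [inner_self_eq_norm_sq_to_K, he']; simp
    have h3 : inner ℂ e' e = 0 := by rw [← inner_conj_symm, hee]; simp
    intro i j
    fin_cases i <;> fin_cases j <;> simp [h3, hee, he, he']
  have h := ho.sum_inner_products_le (s := Finset.univ) z
  simpa [Fin.sum_univ_two] using h

theorem GMA_prod {e e' : E} (he : ‖e‖ = 1) (he' : ‖e'‖ = 1) (hee : inner ℂ e e' = 0) {R : ℝ}
    {z : E} (hz : z ∈ ball (0 : E) R) :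
    ‖(inner ℂ e z : ℂ)‖ < R ∧ ‖(inner ℂ e' z : ℂ)‖ < R ∧
      ‖(inner ℂ e z : ℂ) * inner ℂ e' z‖ < R ^ 2 / 2 := by
  rw [mem_ball_zero_iff] at hz
  have hb := GMA_bessel he he' hee z
  have h0 := norm_nonneg z
  have hx := norm_nonneg (inner ℂ e z : ℂ)
  have hy := norm_nonneg (inner ℂ e' z : ℂ)
  have hR : ‖z‖ ^ 2 < R ^ 2 := by nlinarith
  refine ⟨?_, ?_, ?_⟩
  · nlinarith
  · nlinarith
  · rw [norm_mul]
    nlinarith [sq_nonneg (‖(inner ℂ e z : ℂ)‖ - ‖(inner ℂ e' z : ℂ)‖)]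

theorem GMA_fst {e e' : E} (he : ‖e‖ = 1) (hee : inner ℂ e e' = 0)
    (a b : ℂ → ℂ) (z : E) :
    inner ℂ e (Gm a b e e' z) = inner ℂ e z * a (inner ℂ e z * inner ℂ e' z) := by
  have h1 : inner ℂ e e = 1 := by rw [inner_self_eq_norm_sq_to_K, he]; simp
  unfold Gm
  rw [inner_add_right, inner_add_right, inner_smul_right, inner_smul_right, h1, hee]
  ring

theorem GMA_snd {e e' : E} (he' : ‖e'‖ = 1) (hee : inner ℂ e e' = 0)
    (a b : ℂ → ℂ) (z : E) :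
    inner ℂ e' (Gm a b e e' z) = inner ℂ e' z * b (inner ℂ e z * inner ℂ e' z) := by
  have h2 : inner ℂ e' e' = 1 := by rw [inner_self_eq_norm_sq_to_K, he']; simp
  have h3 : inner ℂ e' e = 0 := by rw [← inner_conj_symm, hee]; simp
  unfold Gm
  rw [inner_add_right, inner_add_right, inner_smul_right, inner_smul_right, h2, h3]
  ring

theorem GMA_diff {e e' : E} (he : ‖e‖ = 1) (he' : ‖e'‖ = 1) (hee : inner ℂ e e' = 0)
    {a b : ℂ → ℂ} {R : ℝ} (ha : DifferentiableOn ℂ a (ball 0 (R ^ 2 / 2)))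
    (hb : DifferentiableOn ℂ b (ball 0 (R ^ 2 / 2))) :
    DifferentiableOn ℂ (Gm a b e e') (ball 0 R) := by
  have hX : ∀ v : E, Differentiable ℂ (fun z : E => (inner ℂ v z : ℂ)) := fun v =>
    (innerSL ℂ v).differentiable
  have hs : DifferentiableOn ℂ (fun z : E => (inner ℂ e z : ℂ) * inner ℂ e' z) (ball 0 R) :=
    ((hX e).mul (hX e')).differentiableOn
  have hm : MapsTo (fun z : E => (inner ℂ e z : ℂ) * inner ℂ e' z) (ball 0 R)
      (ball 0 (R ^ 2 / 2)) := by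
    intro z hz
    rw [mem_ball_zero_iff]
    exact (GMA_prod he he' hee hz).2.2
  have h1 : DifferentiableOn ℂ (fun z : E => a ((inner ℂ e z : ℂ) * inner ℂ e' z)) (ball 0 R) :=
    ha.comp hs hm
  have h2 : DifferentiableOn ℂ (fun z : E => b ((inner ℂ e z : ℂ) * inner ℂ e' z)) (ball 0 R) :=
    hb.comp hs hm
  have h3 : DifferentiableOn ℂ (fun z : E => ((inner ℂ e z : ℂ) *
      (a ((inner ℂ e z : ℂ) * inner ℂ e' z) - 1)) • e) (ball 0 R) :=
    ((hX e).differentiableOn.mul (h1.sub_const 1)).smul_const e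
  have h4 : DifferentiableOn ℂ (fun z : E => ((inner ℂ e' z : ℂ) *
      (b ((inner ℂ e z : ℂ) * inner ℂ e' z) - 1)) • e') (ball 0 R) :=
    ((hX e').differentiableOn.mul (h2.sub_const 1)).smul_const e'
  exact (differentiableOn_id.add h3).add h4

theorem GMA_mem_DD {e e' : E} (he : ‖e‖ = 1) (he' : ‖e'‖ = 1) (hee : inner ℂ e e' = 0)
    {a b : ℂ → ℂ} {s₀ : ℂ} (hs0 : s₀ ≠ 0) (hs : ‖s₀‖ < 1 / 2) (has : a s₀ = 0)
    (hbs : b s₀ ≠ 0) (ζ : ℂ) (hζ : ‖ζ‖ = 1) :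
    (((‖b s₀‖ / Real.sqrt 2 : ℝ) : ℂ) * ζ) • e' ∈ Gm a b e e' '' ball 0 1 := by
  have h1 : inner ℂ e e = 1 := by rw [inner_self_eq_norm_sq_to_K, he]; simp
  have h2 : inner ℂ e' e' = 1 := by rw [inner_self_eq_norm_sq_to_K, he']; simp
  have h3 : inner ℂ e' e = 0 := by rw [← inner_conj_symm, hee]; simp
  set V : ℂ := ((‖b s₀‖ / Real.sqrt 2 : ℝ) : ℂ) * ζ with hV
  have hr2 : (0:ℝ) < Real.sqrt 2 := by positivity
  have hsq2 : Real.sqrt 2 ^ 2 = 2 := Real.sq_sqrt (by norm_num)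
  have hnb : 0 < ‖b s₀‖ := norm_pos_iff.2 hbs
  have hnV : ‖V‖ = ‖b s₀‖ / Real.sqrt 2 := by
    rw [hV, norm_mul, hζ, mul_one, Complex.norm_real, Real.norm_eq_abs,
      abs_of_nonneg (by positivity)]
  set Y : ℂ := V / b s₀ with hY
  have hnY : ‖Y‖ = 1 / Real.sqrt 2 := by
    rw [hY, norm_div, hnV]
    field_simp
  have hY0 : Y ≠ 0 := by
    intro h
    rw [h, norm_zero] at hnY
    have : (0:ℝ) < 1 / Real.sqrt 2 := by positivity
    linarith
  set X : ℂ := s₀ / Y with hX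
  have hXY : X * Y = s₀ := by rw [hX]; field_simp
  have hnX : ‖X‖ = ‖s₀‖ * Real.sqrt 2 := by
    rw [hX, norm_div, hnY]
    field_simp
  have iz1 : inner ℂ e (X • e + Y • e') = X := by
    rw [inner_add_right, inner_smul_right, inner_smul_right, h1, hee]; ring
  have iz2 : inner ℂ e' (X • e + Y • e') = Y := by
    rw [inner_add_right, inner_smul_right, inner_smul_right, h2, h3]; ring
  refine ⟨X • e + Y • e', ?_, ?_⟩
  · rw [mem_ball_zero_iff]
    have hn : ‖X • e + Y • e'‖ ^ 2 = ‖X‖ ^ 2 + ‖Y‖ ^ 2 := by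
      have ho : inner ℂ (X • e) (Y • e') = 0 := by
        rw [inner_smul_left, inner_smul_right, hee]; simp
      have := norm_add_sq_eq_norm_sq_add_norm_sq_of_inner_eq_zero (X • e) (Y • e') ho
      rw [sq, this, norm_smul, norm_smul, he, he']
      ring
    have h5 : ‖X • e + Y • e'‖ ^ 2 < 1 := by
      rw [hn, hnX, hnY, mul_pow, hsq2, div_pow, hsq2]
      nlinarith [norm_nonneg s₀]
    nlinarith [norm_nonneg (X • e + Y • e')]
  · unfold Gm
    rw [iz1, iz2, hXY, has]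
    have h6 : Y * b s₀ = V := by rw [hY]; field_simp
    have h7 : Y * (b s₀ - 1) = V - Y := by rw [mul_sub, h6, mul_one]
    rw [h7]
    module

end GMA

theorem gma : GMAStmt := by
  intro a b R C s₀ h E _ _ e e' he he' hee
  refine ⟨GMA_diff he he' hee h.diffa h.diffb, ?_, fun z => GMA_fst he hee a b z, ?_, ?_⟩
  · intro z hz z' hz' hzz
    obtain ⟨p1, p2, p3⟩ := GMA_prod he he' hee hz
    obtain ⟨q1, q2, q3⟩ := GMA_prod he he' hee hz'
    have e1 : (inner ℂ e (Gm a b e e' z) : ℂ) = inner ℂ e (Gm a b e e' z') := by rw [hzz]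
    have e2 : (inner ℂ e' (Gm a b e e' z) : ℂ) = inner ℂ e' (Gm a b e e' z') := by rw [hzz]
    rw [GMA_fst he hee, GMA_fst he hee] at e1
    rw [GMA_snd he' hee, GMA_snd he' hee] at e2
    obtain ⟨hx, hy⟩ := h.inj _ _ _ _ p1 p2 q1 q2 p3 q3 e1 e2
    unfold Gm at hzz
    rw [hx, hy] at hzz
    simpa using hzz
  · rintro ⟨z, hz, hzz⟩
    obtain ⟨p1, p2, p3⟩ := GMA_prod he he' hee hz
    have e1 : (inner ℂ e (Gm a b e e' z) : ℂ) = inner ℂ e ((2:ℂ) • e') := by rw [hzz]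
    have e2 : (inner ℂ e' (Gm a b e e' z) : ℂ) = inner ℂ e' ((2:ℂ) • e') := by rw [hzz]
    rw [GMA_fst he hee, inner_smul_right, hee, mul_zero] at e1
    have h2 : inner ℂ e' e' = 1 := by rw [inner_self_eq_norm_sq_to_K, he']; simp
    rw [GMA_snd he' hee, inner_smul_right, h2, mul_one] at e2
    exact h.hole _ _ p1 p2 p3 e1 e2
  · intro ζ hζ
    refine GMA_mem_DD he he' hee h.s₀_ne h.s₀_lt h.a_s₀ ?_ ζ hζ
    intro h0
    have := h.b_s₀
    rw [h0, norm_zero] at this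
    linarith

end Pool.Agent.H6.FB
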