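import Pool.Agent.H6.FB.Stmts

/-!
# Project FB: module HUR (compact sets in the image stay in the image)
-/

set_option autoImplicit false

open Metric Set Filter Topology

namespace Pool.Agent.H6.FB

theorem hur (hO : OSGStmt) (hL : LSUStmt) : HURStmt := by
  intro E _ _ _ F hF hinj K hK hKF
  have h1 : ∀ y ∈ K, ∃ σ > 0, ∃ r : ℝ, 0 < r ∧ r < 1 ∧ ∃ η > 0, ∀ f : E → E,
      DifferentiableOn ℂ f (ball 0 1) → (∀ z ∈ closedBall (0 : E) r, ‖f z - F z‖ < η) →
      ball y σ ⊆ f '' closedBall 0 r := by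
    intro y hy
    obtain ⟨p, hp, rfl⟩ := hKF hy
    have hi : Function.Injective (fderiv ℂ F p) :=
      hO (Module.finrank ℂ E) E E rfl rfl F (ball 0 1) isOpen_ball hF hinj p hp
    have hp1 : ‖p‖ < 1 := mem_ball_zero_iff.1 hp
    -- use a smaller ball, so that the small closed ball has norm bounded by r < 1
    obtain ⟨ρ, hρ, hρU, σ, hσ, η, hη, hf⟩ := hL E F (ball 0 ((1 + ‖p‖) / 2)) isOpen_ball
      (hF.mono (ball_subset_ball (by linarith))) p (by rw [mem_ball_zero_iff]; linarith) hi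
    have hr0 : 0 < (1 + ‖p‖) / 2 := by linarith [norm_nonneg p]
    have hsub : closedBall p ρ ⊆ closedBall (0 : E) ((1 + ‖p‖) / 2) :=
      hρU.trans ball_subset_closedBall
    refine ⟨σ, hσ, (1 + ‖p‖) / 2, hr0, by linarith, η, hη, ?_⟩
    intro f hfd hfF
    have h2 := hf f (hfd.mono (ball_subset_ball (by linarith))) (fun z hz => hfF z (hsub hz))
    exact h2.trans (image_mono hsub)
  choose! σ hσ r hr0 hr1 η hη h2 using h1
  obtain ⟨t, htK, htc⟩ := hK.elim_nhds_subcover (fun y => ball y (σ y))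
    (fun y hy => ball_mem_nhds y (hσ y hy))
  by_cases ht : t.Nonempty
  · obtain ⟨y₁, hy₁, hmax⟩ := t.exists_max_image r ht
    obtain ⟨y₂, hy₂, hmin⟩ := t.exists_min_image η ht
    refine ⟨r y₁, hr0 y₁ (htK y₁ hy₁), hr1 y₁ (htK y₁ hy₁), η y₂, hη y₂ (htK y₂ hy₂), ?_⟩
    intro f hfd hfF x hx
    obtain ⟨y, hy, hxy⟩ := mem_iUnion₂.1 (htc hx)
    have hsub : closedBall (0 : E) (r y) ⊆ closedBall (0 : E) (r y₁) :=
      closedBall_subset_closedBall (hmax y hy)
    exact image_mono hsub (h2 y (htK y hy) f hfd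
      (fun z hz => (hfF z (hsub hz)).trans_le (hmin y hy)) hxy)
  · rw [Finset.not_nonempty_iff_eq_empty] at ht
    refine ⟨1 / 2, by norm_num, by norm_num, 1, one_pos, ?_⟩
    intro f _ _ x hx
    have := htc hx
    rw [ht] at this
    simp at this

end Pool.Agent.H6.FB
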