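import Pool.Agent.H6.FB.Stmts

/-!
# Project FB: module LSU (local surjectivity, stable under small perturbations)
-/

set_option autoImplicit false

open Metric Set Filter Topology
open scoped NNReal

namespace Pool.Agent.H6.FB

section LSU

variable {E : Type} [NormedAddCommGroup E] [NormedSpace ℂ E]

/-- Cauchy estimate for the Frechet derivative -/
theorem LSU_cauchy {f : E → E} {q : E} {r M : ℝ} (hr : 0 < r)
    (hf : DifferentiableOn ℂ f (ball q r)) (hM : ∀ m ∈ ball q r, ‖f m‖ ≤ M) :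
    ‖fderiv ℂ f q‖ ≤ 2 * M / r := by
  refine Complex.norm_fderiv_le_div_of_mapsTo_ball hf ?_ hr
  intro m hm
  rw [mem_closedBall, dist_eq_norm]
  calc ‖f m - f q‖ ≤ ‖f m‖ + ‖f q‖ := norm_sub_le _ _
    _ ≤ M + M := add_le_add (hM m hm) (hM q (mem_ball_self hr))
    _ = 2 * M := by ring

/-- small holomorphic maps have small Lipschitz constants on the smaller ball -/
theorem LSU_lip {g : E → E} {U : Set E} (hU : IsOpen U) (hg : DifferentiableOn ℂ g U) {p : E}
    {ρ η : ℝ} (hρ : 0 < ρ) (hb : closedBall p ρ ⊆ U) (hη : ∀ z ∈ closedBall p ρ, ‖g z‖ ≤ η) :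
    ∀ x ∈ closedBall p (ρ / 2), ∀ y ∈ closedBall p (ρ / 2), ‖g x - g y‖ ≤ 4 * η / ρ * ‖x - y‖ := by
  have hsub : closedBall p (ρ / 2) ⊆ closedBall p ρ := closedBall_subset_closedBall (by linarith)
  intro x hx y hy
  have hd : ∀ z ∈ closedBall p (ρ / 2), DifferentiableAt ℂ g z := fun z hz =>
    hg.differentiableAt (hU.mem_nhds (hb (hsub hz)))
  have hbd : ∀ z ∈ closedBall p (ρ / 2), ‖fderiv ℂ g z‖ ≤ 4 * η / ρ := by
    intro z hz
    have hs : ball z (ρ / 2) ⊆ closedBall p ρ := by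
      intro w hw
      rw [mem_ball] at hw
      rw [mem_closedBall] at hz ⊢
      have := dist_triangle w z p
      linarith
    have := LSU_cauchy (f := g) (q := z) (r := ρ / 2) (M := η) (by linarith)
      (hg.mono (hs.trans hb)) (fun m hm => hη m (hs hm))
    calc ‖fderiv ℂ g z‖ ≤ 2 * η / (ρ / 2) := this
      _ = 4 * η / ρ := by field_simp; ring
  exact (convex_closedBall p (ρ / 2)).norm_image_sub_le_of_norm_fderiv_le (𝕜 := ℂ) hd hbd hy hx

end LSU

theorem lsu (hD : DIFStmt) : LSUStmt := by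
  intro E _ _ _ F U hU hF p hp hinj
  have : CompleteSpace E := FiniteDimensional.complete ℂ E
  obtain ⟨-, -, hstr⟩ := hD E E F U hU hF
  have hs := hstr p hp
  set L := fderiv ℂ F p with hL
  have hinj' : Function.Injective (L : E →ₗ[ℂ] E) := hinj
  have hsurj : Function.Surjective (L : E →ₗ[ℂ] E) := LinearMap.injective_iff_surjective.1 hinj'
  let e : E ≃ₗ[ℂ] E := LinearEquiv.ofBijective (L : E →ₗ[ℂ] E) ⟨hinj', hsurj⟩
  let eL : E ≃L[ℂ] E := e.toContinuousLinearEquiv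
  have heL : ∀ x, eL x = L x := fun x => rfl
  set N : ℝ≥0 := ‖(eL.symm : E →L[ℂ] E)‖₊ + 1 with hN
  have hN0 : 0 < N := by positivity
  let R : L.NonlinearRightInverse :=
    { toFun := eL.symm
      nnnorm := N
      bound' := by
        intro y
        have h1 : ‖(eL.symm : E →L[ℂ] E) y‖ ≤ ‖(eL.symm : E →L[ℂ] E)‖ * ‖y‖ :=
          ContinuousLinearMap.le_opNorm _ y
        have h2 : (N : ℝ) = ‖(eL.symm : E →L[ℂ] E)‖ + 1 := by
          rw [hN]; push_cast; rfl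
        rw [h2]
        have h3 : ‖eL.symm y‖ ≤ ‖(eL.symm : E →L[ℂ] E)‖ * ‖y‖ := h1
        nlinarith [norm_nonneg y]
      right_inv' := fun y => by
        rw [← heL]
        exact eL.apply_symm_apply y }
  have hc1 : (0 : ℝ≥0) < (4 * N)⁻¹ := by positivity
  obtain ⟨s, hsn, hsa⟩ := hs.approximates_deriv_on_nhds (c := (4 * N)⁻¹) (Or.inr hc1)
  obtain ⟨ρ, hρ, hρs⟩ := Metric.nhds_basis_closedBall.mem_iff.1
    (Filter.inter_mem hsn (hU.mem_nhds hp))
  have hNr : (0:ℝ) < N := by exact_mod_cast hN0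
  refine ⟨ρ, hρ, fun z hz => (hρs hz).2, ρ / (8 * N), by positivity, ρ / (16 * N), by positivity,
    ?_⟩
  intro f hf hfF
  have hbU : closedBall p ρ ⊆ U := fun z hz => (hρs hz).2
  have hlip := LSU_lip (g := fun z => f z - F z) hU (hf.sub hF) hρ hbU
    (fun z hz => (hfF z hz).le)
  have hsub : closedBall p (ρ / 2) ⊆ closedBall p ρ := closedBall_subset_closedBall (by linarith)
  have hap : ApproximatesLinearOn f L (closedBall p (ρ / 2)) ((2 * N)⁻¹) := by
    intro x hx y hy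
    have h1 := hsa x (hρs (hsub hx)).1 y (hρs (hsub hy)).1
    have h2 := hlip x hx y hy
    have e1 : f x - f y - L (x - y) = (F x - F y - L (x - y)) + ((f x - F x) - (f y - F y)) := by
      abel
    rw [e1]
    have h3 : ((((4 * N)⁻¹ : ℝ≥0)) : ℝ) = 1 / (4 * (N:ℝ)) := by push_cast; ring
    have h4 : ((((2 * N)⁻¹ : ℝ≥0)) : ℝ) = 1 / (2 * (N:ℝ)) := by push_cast; ring
    rw [h3] at h1
    rw [h4]
    have h5 : 4 * (ρ / (16 * (N:ℝ))) / ρ = 1 / (4 * (N:ℝ)) := by field_simp; norm_num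
    rw [h5] at h2
    calc _ ≤ ‖F x - F y - L (x - y)‖ + ‖(f x - F x) - (f y - F y)‖ := norm_add_le _ _
      _ ≤ 1 / (4 * (N:ℝ)) * ‖x - y‖ + 1 / (4 * (N:ℝ)) * ‖x - y‖ := add_le_add h1 h2
      _ = 1 / (2 * (N:ℝ)) * ‖x - y‖ := by ring
  have hsurjOn := hap.surjOn_closedBall_of_nonlinearRightInverse R (ε := ρ / 2) (b := p)
    (by linarith) subset_rfl
  intro y hy
  have hy2 : y ∈ closedBall (f p) (((R.nnnorm : ℝ)⁻¹ - ((2 * N)⁻¹ : ℝ≥0)) * (ρ / 2)) := by
    have e2 : ((R.nnnorm : ℝ)⁻¹ - ((2 * N)⁻¹ : ℝ≥0)) * (ρ / 2) = ρ / (4 * (N:ℝ)) := by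
      have : R.nnnorm = N := rfl
      rw [this]
      push_cast
      field_simp
      norm_num
    rw [e2, mem_closedBall]
    rw [mem_ball] at hy
    have h6 := hfF p (mem_closedBall_self hρ.le)
    have h7 : dist (F p) (f p) < ρ / (16 * (N:ℝ)) := by
      rw [dist_comm, dist_eq_norm]; exact h6
    have h8 := dist_triangle y (F p) (f p)
    have h9 : ρ / (8 * (N:ℝ)) + ρ / (16 * (N:ℝ)) ≤ ρ / (4 * (N:ℝ)) := by
      rw [← sub_nonneg]
      have : ρ / (4 * (N:ℝ)) - (ρ / (8 * (N:ℝ)) + ρ / (16 * (N:ℝ))) = ρ / (16 * (N:ℝ)) := by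
        field_simp; norm_num
      rw [this]; positivity
    linarith
  obtain ⟨x, hx, hxy⟩ := hsurjOn hy2
  exact ⟨x, hsub hx, hxy⟩

end Pool.Agent.H6.FB
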